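import Pool.Agent.H45.Lib.S8.W223.HZ.Stms

set_option autoImplicit false

namespace Pool.Agent.W303.HZ.IN2

open Polynomial Pool.Agent.W223.HZ

noncomputable section

/-- polynomial with given coefficients -/
def pol {m : ℕ} (w : Fin m → ℤ) : ℤ[X] := ∑ j : Fin m, C (w j) * X ^ (j : ℕ)

lemma coeff_pol {m : ℕ} (w : Fin m → ℤ) (k : ℕ) :
    (pol w).coeff k = if h : k < m then w ⟨k, h⟩ else 0 := by
  unfold pol
  rw [Polynomial.finsetSum_coeff]
  simp only [coeff_C_mul, coeff_X_pow, mul_ite, mul_one, mul_zero]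
  by_cases h : k < m
  · rw [dif_pos h, Finset.sum_eq_single ⟨k, h⟩]
    · simp
    · intro j _ hj
      rw [if_neg]
      intro hk
      exact hj (Fin.ext hk.symm)
    · intro hn
      exact absurd (Finset.mem_univ _) hn
  · rw [dif_neg h]
    refine Finset.sum_eq_zero fun j _ => ?_
    rw [if_neg]
    intro hk
    exact h (hk ▸ j.2)

lemma natDegree_pol {m : ℕ} (hm : 1 ≤ m) (w : Fin m → ℤ) : (pol w).natDegree < m := by
  have h1 : (pol w).natDegree ≤ m - 1 := by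
    rw [natDegree_le_iff_coeff_eq_zero]
    intro k hk
    rw [coeff_pol, dif_neg (by omega)]
  omega

lemma eval_pol {m : ℕ} (w : Fin m → ℤ) (τ : ℤ) : (pol w).eval τ = ∑ j : Fin m, w j * τ ^ (j : ℕ) := by
  unfold pol
  rw [eval_finsetSum]
  simp

lemma pol_ne {m : ℕ} (w : Fin m → ℤ) (j : Fin m) (h : w j ≠ 0) : pol w ≠ 0 := by
  intro h0
  have h1 := coeff_pol w j
  rw [h0, coeff_zero, dif_pos j.2] at h1
  exact h h1.symm

theorem t (hV : StmtVA2) (hR : StmtREL) (hC : StmtCUB) (hA : StmtINA) : StmtIN2 := by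
  obtain ⟨c₀, S₁, hc₀, hS₁, hV⟩ := hV
  obtain ⟨S₂, hS₂, hA⟩ := hA
  refine ⟨c₀, max (max S₁ S₂) 10, hc₀, le_trans hS₁ (le_trans (le_max_left _ _) (le_max_left _ _)), ?_⟩
  intro R T V a b c p q 𝒟 ha hcube hR20 hT hS hV1 hlog hG hcell hint
  set S : ℝ := R * T ^ 3 with hSdef
  have hSS₁ : S₁ ≤ S := le_trans (le_trans (le_max_left _ _) (le_max_left _ _)) hS
  have hSS₂ : S₂ ≤ S := le_trans (le_trans (le_max_right _ _) (le_max_left _ _)) hS
  have hS10 : 10 ≤ S := le_trans (le_max_right _ _) hS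
  have hS0 : 0 < S := by linarith
  rcases Finset.eq_empty_or_nonempty 𝒟 with rfl | ⟨d₀, hd₀⟩
  · simp only [Finset.card_empty, Nat.cast_zero]
    exact Real.rpow_nonneg hS0.le _
  -- the exponent
  have hlS : 1 ≤ Real.log S := by
    rw [Real.le_log_iff_exp_le hS0]
    have := Real.exp_one_lt_d9
    linarith
  have hV0 : 0 < V := lt_of_lt_of_le (Real.rpow_pos_of_pos hS0 _) hV1
  obtain ⟨σ, hσ⟩ : ∃ σ : ℝ, σ = Real.log V / Real.log S := ⟨_, rfl⟩
  have hVσ : V = S ^ σ := by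
    rw [Real.rpow_def_of_pos hS0, hσ, mul_div_cancel₀ _ (by linarith : Real.log S ≠ 0)]
    exact (Real.exp_log hV0).symm
  have hlV : 1 / 2 * Real.log S ≤ Real.log V := by
    have := Real.log_le_log (Real.rpow_pos_of_pos hS0 _) hV1
    rwa [Real.log_rpow hS0] at this
  have hσ1 : 1 / 2 ≤ σ := by
    rw [hσ, le_div_iff₀ (by linarith)]
    exact hlV
  have hσ2 : σ ≤ S ^ ((1 : ℝ) / 2500) := by
    refine le_trans ?_ hlog
    rw [hσ]
    exact div_le_self (by linarith) hlS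
  obtain ⟨m, hm⟩ : ∃ m : ℕ, m = ⌈5 * σ⌉₊ := ⟨_, rfl⟩
  have hm1 : 1 ≤ m := by
    rw [hm, Nat.one_le_ceil_iff]
    linarith
  set L : ℝ := S ^ ((1 : ℝ) / 11) with hLdef
  have hL1 : 1 ≤ L := Real.one_le_rpow (by linarith) (by norm_num)
  obtain ⟨Λ, hΛ1, hΛm, hΛe, hΛf⟩ := hA S σ m hSS₂ hσ1 hσ2 hm
  have hV1' : 1 ≤ V := by
    rw [hVσ]; exact Real.one_le_rpow (by linarith) (by linarith)
  -- the matrix
  let A : {d // d ∈ 𝒟} → Fin m ⊕ Fin m → ℤ := fun i =>
    Sum.elim (fun j : Fin m => p i * ((i : ℤ) - d₀) ^ (j : ℕ))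
      (fun j : Fin m => q i * ((i : ℤ) - d₀) ^ (j : ℕ))
  obtain ⟨H0, hH0⟩ : ∃ H0 : ℝ, H0 = 400 * S * S ^ σ * L ^ m := ⟨_, rfl⟩
  have hLm : ∀ j : Fin m, L ^ (j : ℕ) ≤ L ^ m := fun j => pow_le_pow_right₀ hL1 j.2.le
  have hLm1 : 1 ≤ L ^ m := one_le_pow₀ hL1
  have hH01 : 1 ≤ H0 := by
    rw [hH0, ← hVσ]
    have h1 : 1 ≤ 400 * S := by linarith
    exact one_le_mul_of_one_le_of_one_le (one_le_mul_of_one_le_of_one_le h1 hV1') hLm1
  have hTS : T ≤ S := by
    have h1 : 20 * T ^ 3 ≤ S := by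
      rw [hSdef]; exact mul_le_mul_of_nonneg_right hR20 (by positivity)
    nlinarith [sq_nonneg (T - 1 / 2), mul_nonneg (by linarith : (0 : ℝ) ≤ T - 1 / 2)
      (by linarith : (0 : ℝ) ≤ T), mul_nonneg (mul_nonneg (by linarith : (0 : ℝ) ≤ T - 1 / 2)
      (by linarith : (0 : ℝ) ≤ T)) (by linarith : (0 : ℝ) ≤ T)]
  have hτ : ∀ d ∈ 𝒟, |((d - d₀ : ℤ) : ℝ)| ≤ L := by
    intro d hd
    push_cast
    exact hint d hd d₀ hd₀
  have hAb : ∀ i j, |(A i j : ℝ)| ≤ H0 := by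
    rintro ⟨d, hd⟩ (j | j)
    · change |((p d * (d - d₀) ^ (j : ℕ) : ℤ) : ℝ)| ≤ H0
      rw [Int.cast_mul, Int.cast_pow, abs_mul, abs_pow]
      calc |(p d : ℝ)| * |((d - d₀ : ℤ) : ℝ)| ^ (j : ℕ) ≤ (200 * (T * V)) * L ^ m := by
            refine mul_le_mul (hG d hd).1.hp ?_ (by positivity) (by positivity)
            exact (pow_le_pow_left₀ (abs_nonneg _) (hτ d hd) _).trans (hLm j)
        _ ≤ H0 := by
            rw [hH0, ← hVσ]
            refine mul_le_mul_of_nonneg_right ?_ (by positivity)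
            have : T * V ≤ S * V := mul_le_mul_of_nonneg_right hTS hV0.le
            have h2 : 0 ≤ S * V := by positivity
            nlinarith
    · change |((q d * (d - d₀) ^ (j : ℕ) : ℤ) : ℝ)| ≤ H0
      rw [Int.cast_mul, Int.cast_pow, abs_mul, abs_pow]
      have hq : |(q d : ℝ)| ≤ 400 * V := by
        have h1 := (hG d hd).1.hq
        have h2 : |(q d : ℝ)| * (1 / 2) ≤ |(q d : ℝ)| * T :=
          mul_le_mul_of_nonneg_left hT (abs_nonneg _)
        linarith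
      calc |(q d : ℝ)| * |((d - d₀ : ℤ) : ℝ)| ^ (j : ℕ) ≤ (400 * V) * L ^ m := by
            refine mul_le_mul hq ?_ (by positivity) (by positivity)
            exact (pow_le_pow_left₀ (abs_nonneg _) (hτ d hd) _).trans (hLm j)
        _ ≤ H0 := by
            rw [hH0, ← hVσ]
            refine mul_le_mul_of_nonneg_right ?_ (by positivity)
            nlinarith
  have hdet : ∀ f : Fin m ⊕ Fin m → {d // d ∈ 𝒟},
      Matrix.det (Matrix.of fun i j => A (f i) j) = 0 := by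
    intro f
    have h1 := hV R T V σ m a b c d₀ (p d₀) (q d₀) (fun i => p (f i)) (fun i => q (f i))
      (fun i => (f i : ℤ)) hR20 hT hSS₁ hσ1 hVσ hm (fun i => hG _ (f i).2) (hG d₀ hd₀).1
      (hG d₀ hd₀).2 (fun i j => hcell _ (f i).2 _ (f j).2) (fun i => hcell _ (f i).2 _ hd₀)
      (fun i => hint _ (f i).2 _ hd₀)
    exact h1
  obtain ⟨v, hv0, hvA, hvb⟩ := hR A H0 hH01 ⟨⟨d₀, hd₀⟩⟩ hAb hdet
  have hcardκ : Fintype.card (Fin m ⊕ Fin m) = m + m := by simp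
  rw [hcardκ] at hvb
  obtain ⟨Hb, hHb⟩ : ∃ Hb : ℝ, Hb = (((m + m : ℕ) : ℝ) * H0) ^ (m + m) := ⟨_, rfl⟩
  have hHb1 : 1 ≤ Hb := by
    rw [hHb]
    apply one_le_pow₀
    have h1 : (1 : ℝ) ≤ ((m + m : ℕ) : ℝ) := by exact_mod_cast (by omega : 1 ≤ m + m)
    exact one_le_mul_of_one_le_of_one_le h1 hH01
  have hcf : ∀ (w : Fin m → ℤ), (∀ j, |(w j : ℝ)| ≤ Hb) → ∀ k, |((pol w).coeff k : ℝ)| ≤ Hb := by
    intro w hw k
    rw [coeff_pol]
    by_cases hk : k < m
    · rw [dif_pos hk]; exact hw _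
    · rw [dif_neg hk]; simp only [Int.cast_zero, abs_zero]; linarith
  have hne : pol (fun j => v (Sum.inl j)) ≠ 0 ∨ pol (fun j => v (Sum.inr j)) ≠ 0 := by
    obtain ⟨j, hj⟩ := Function.ne_iff.1 hv0
    rcases j with j | j
    · exact Or.inl (pol_ne _ j hj)
    · exact Or.inr (pol_ne _ j hj)
  have hfin := hC a b c d₀ ha hcube (pol fun j => v (Sum.inl j)) (pol fun j => v (Sum.inr j)) m
    hne (natDegree_pol hm1 _) (natDegree_pol hm1 _) L Hb Λ hL1 hHb1 hΛ1 hΛm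
    (by rw [hHb, hH0]; exact hΛe)
    (hcf _ fun j => by rw [hHb]; exact hvb _) (hcf _ fun j => by rw [hHb]; exact hvb _)
    (𝒟.image fun d => d - d₀) (by
      intro τ hτ'
      obtain ⟨d, hd, rfl⟩ := Finset.mem_image.1 hτ'
      exact hτ d hd) (by
      intro τ hτ'
      obtain ⟨d, hd, rfl⟩ := Finset.mem_image.1 hτ'
      refine ⟨p d, q d, ?_, ?_⟩
      · have h1 := hvA ⟨d, hd⟩
        rw [Fintype.sum_sum_type] at h1
        rw [eval_pol, eval_pol, Finset.mul_sum, Finset.mul_sum, ← h1]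
        congr 1
        · refine Finset.sum_congr rfl fun j _ => ?_
          change _ = p d * (d - d₀) ^ (j : ℕ) * v (Sum.inl j)
          ring
        · refine Finset.sum_congr rfl fun j _ => ?_
          change _ = q d * (d - d₀) ^ (j : ℕ) * v (Sum.inr j)
          ring
      · have h1 := (hG d hd).1.heq
        rw [show d₀ + (d - d₀) = d by ring]
        exact h1)
  rw [Finset.card_image_of_injective _ (fun x y h => by simpa using h)] at hfin
  exact hfin.trans hΛf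

end

end Pool.Agent.W303.HZ.IN2
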